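import Mathlib
import Pool.Agent.Lib.MP_c95b3b_ag_h8.Indep

set_option autoImplicit false

/-! MP_c95b3b_ag: from the complex numbers to all fields of characteristic zero.

Proof of `base`. Work first with the two lemmas `exists_countable` and `exists_embedding`.

1. `exists_countable`: there is a COUNTABLE subfield `k` of `K` such that every polynomial `f` with
coefficients in `k` which vanishes at the points of `U` with all coordinates in `k` vanishes on `U`.
(For each `f` which does not vanish on `U` choose a point `x f ∈ U` with `f (x f) ≠ 0`. Put `k 0 = ⊥`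
(or the closure of `∅`), `k (j + 1)` = the subfield generated by `k j` and the coordinates of the
points `x f`, `f` with coefficients in `k j`; these `f` form a countable set, so
`Subfield.cardinalMk_closure_le_max` keeps all `k j` countable. `k = ⨆ k j`, a directed union: a
polynomial has finitely many coefficients.)

2. `exists_embedding`: a countable field of characteristic zero has a ring homomorphism to `ℂ`. (A
transcendence basis over `ℚ` is countable, `ℂ` has a transcendence basis over `ℚ` of the cardinality
of the continuum (`IsAlgClosed.cardinal_eq_cardinal_transcendence_basis_of_aleph0_lt` or the like),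
so `ℚ(B) → ℂ`, and it extends to the algebraic extension `k` of `ℚ(B)` by `IsAlgClosed.lift`. Please
search Mathlib and `Pool/Agent/Lib` first, the team has this lemma in several places, e.g. search
for `nonempty_algHom` / `→+* ℂ` with `Countable`.)

3. Let `φ : k →+* ℂ`, `Uk` the set of the `y : Fin n → k` whose image is in `U`,
`U' = {φ ∘ y | y ∈ Uk} ⊆ (Fin n → ℂ)`, and `P'` the ideal of the `f : MvPolynomial (Fin n) ℂ` which
vanish on `U'`. KEY DECOMPOSITION: let `F/k` be a field extension (`F = K` or `F = ℂ` via `φ`) and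
`f : MvPolynomial (Fin n) F`. Choose a basis `e` of `F` over `k` (`Module.Basis.ofVectorSpace`);
`f = ∑_b e b • map (f_b)` with finitely many nonzero `f_b : MvPolynomial (Fin n) k` (coefficientwise
coordinates), `(f_b).vars ⊆ f.vars`, and for `y : Fin n → k`: `f (y) = 0` iff `f_b (y) = 0` for all
`b`.
 * `P'` is prime: `1 ∉ P'` as `U'` is not empty (`Uk` not empty: else the polynomial `1` vanishes on
   the empty set, so on `U` by 1.). Let `f * g ∈ P'`, `f, g ∉ P'`: some `f_b` and some `g_c` do not
   vanish on `Uk`, so (their images in `K`) not on `U`, so by `hp` their product does not vanish on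
   `U`, so by 1. not on `Uk`: there is `y ∈ Uk` with `f_b (y) ≠ 0`, `g_c (y) ≠ 0`, so
   `f (φ y) ≠ 0 ≠ g (φ y)`, a contradiction.
 * `∏ X i ∉ P'`: coordinates are not zero, `U'` is not empty.
 * `ringKrullDim (MvPolynomial (Fin n) ℂ ⧸ P') ≤ d`: let `I` be a set of more than `d` variables,
   `f ≠ 0` from `hd` with `f.vars ⊆ I` vanishing on `U`; some `f_b ≠ 0`, it vanishes on `Uk`, and its
   image under `φ` is a nonzero element of `P'` with variables in `I`. So the images of the
   variables in the domain `MvPolynomial (Fin n) ℂ ⧸ P'` have no algebraically independent subset of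
   more than `d` elements, the transcendence degree is `≤ d` (compare `CIT8.exists_maxIndep` and the
   end of the proof of `Qid_dim` in `Pool/Agent/Lib/MP_c95b3b_ag_R/Image.lean`, where the Krull
   dimension is computed from a maximal independent set of variables, with
   `CIT8.ringKrullDim_eq_card` of `MP_c95b3b_ag_h8/Indep.lean`, imported here).
 * Apply `hC : FullC` to `n, P'`: if `f` vanishes at all unlikely points of `V(P')` then it vanishes on `U'` (each point of
   `U'` is in `V(P')`, is unlikely with the same lattice as the point of `U`, by the bound for the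
   dimension), so `f ∈ P'`. So there is `a ≠ 0` with `∏ x i ^ a i = 1` on `V(P')` in the torus, so on
   `U'`. The polynomial `∏ X i ^ (a i)⁺ - ∏ X i ^ (a i)⁻` over `k` vanishes on `Uk` (`φ` is
   injective), so on `U` by 1., which is the claim. -/

namespace Pool.Agent.ZT

open MvPolynomial Module

universe u

/-- The theorem over the complex numbers (the body of `S00439`, proved in `MP_c95b3b_ag_ZP/Final.lean`
as `Pool.Agent.ZP.full`; a hypothesis here in order not to import it). -/
def FullC : Prop :=
  ∀ (n : ℕ) (P : Ideal (MvPolynomial (Fin n) ℂ)), P.IsPrime →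
      (∏ i : Fin n, (MvPolynomial.X i : MvPolynomial (Fin n) ℂ)) ∉ P →
      (∀ f : MvPolynomial (Fin n) ℂ,
        (∀ x : Fin n → ℂ, (∀ i, x i ≠ 0) → (∀ g ∈ P, MvPolynomial.eval x g = 0) →
          (∃ Λ : Submodule ℤ (Fin n → ℤ),
            ringKrullDim (MvPolynomial (Fin n) ℂ ⧸ P)
                + ((n - Module.finrank ℤ Λ : ℕ) : WithBot ℕ∞) + 1 ≤ (n : WithBot ℕ∞) ∧
            ∀ a ∈ Λ, ∏ i : Fin n, x i ^ a i = 1) →
          MvPolynomial.eval x f = 0) →
        ∀ x : Fin n → ℂ, (∀ i, x i ≠ 0) → (∀ g ∈ P, MvPolynomial.eval x g = 0) →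
          MvPolynomial.eval x f = 0) →
      ∃ a : Fin n → ℤ, a ≠ 0 ∧
        ∀ x : Fin n → ℂ, (∀ i, x i ≠ 0) → (∀ g ∈ P, MvPolynomial.eval x g = 0) →
          ∏ i : Fin n, x i ^ a i = 1

/-- A countable field of characteristic zero embeds in the complex numbers. -/
private theorem base_embedding (k : Type u) [Field k] [CharZero k] [Countable k] :
    Nonempty (k →+* ℂ) := by
  obtain ⟨s, hs⟩ := exists_isTranscendenceBasis ℤ k
  obtain ⟨t, ht⟩ := exists_isTranscendenceBasis ℤ ℂ
  have hC : Cardinal.aleph0 < Cardinal.mk ℂ := by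
    rw [Cardinal.mk_complex]
    exact Cardinal.aleph0_lt_continuum
  have h1 : Cardinal.mk ℂ = Cardinal.mk t := by
    have := IsAlgClosed.cardinal_eq_cardinal_transcendence_basis_of_aleph0_lt _ ht
      (le_of_eq Cardinal.mk_int) hC
    simpa using this
  have h2 : Cardinal.aleph0 ≤ Cardinal.mk t := by rw [← h1]; exact hC.le
  have h3 : Infinite t := Cardinal.infinite_iff.mpr h2
  have h4 : Countable s := by infer_instance
  obtain ⟨f, hf⟩ := exists_injective_nat s
  obtain ⟨g⟩ : Nonempty (ℕ ↪ t) := ⟨Infinite.natEmbedding t⟩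
  let e : s → t := fun i => g (f i)
  have he : Function.Injective e := g.injective.comp hf
  have hw : AlgebraicIndependent ℤ (fun i : s => ((e i : t) : ℂ)) := ht.1.comp e he
  let R := Algebra.adjoin ℤ (Set.range ((↑) : s → k))
  let a : R →ₐ[ℤ] ℂ := (aeval (fun i : s => ((e i : t) : ℂ))).comp hs.1.aevalEquiv.symm.toAlgHom
  have ha : Function.Injective a := by
    have h5 : Function.Injective (aeval (R := ℤ) (fun i : s => ((e i : t) : ℂ))) := hw
    exact h5.comp hs.1.aevalEquiv.symm.injective
  let : Algebra R ℂ := a.toRingHom.toAlgebra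
  have : FaithfulSMul R ℂ := (faithfulSMul_iff_algebraMap_injective R ℂ).mpr ha
  have : Algebra.IsAlgebraic R k := hs.isAlgebraic
  exact ⟨(IsAlgClosed.lift : k →ₐ[R] ℂ).toRingHom⟩

private theorem base_countable_poly (k : Type u) [CommRing k] [Countable k] (n : ℕ) :
    Countable (MvPolynomial (Fin n) k) := by
  rw [← Cardinal.mk_le_aleph0_iff]
  exact MvPolynomial.cardinalMk_le_max_lift.trans (by simp)

section tower

variable {K : Type u} [Field K] {n : ℕ} (U : Set (Fin n → K))

/-- A point of `U` at which `f` does not vanish. -/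
private noncomputable def baseWit (f : MvPolynomial (Fin n) K) : Fin n → K :=
  open Classical in if h : ∃ x ∈ U, eval x f ≠ 0 then h.choose else 0

private theorem baseWit_spec (f : MvPolynomial (Fin n) K) (h : ∃ x ∈ U, eval x f ≠ 0) :
    baseWit U f ∈ U ∧ eval (baseWit U f) f ≠ 0 := by
  unfold baseWit
  rw [dif_pos h]
  exact h.choose_spec

/-- The tower of countable subfields. -/
private noncomputable def baseTower : ℕ → Subfield K
  | 0 => ⊥
  | j + 1 => Subfield.closure ((baseTower j : Set K) ∪
      ⋃ g : MvPolynomial (Fin n) (baseTower j),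
        Set.range (baseWit U (map (algebraMap (baseTower j) K) g)))

private theorem baseTower_succ_le (j : ℕ) : baseTower U j ≤ baseTower U (j + 1) := by
  intro x hx
  rw [baseTower]
  exact Subfield.subset_closure (Or.inl hx)

private theorem baseTower_mono : Monotone (baseTower U) :=
  monotone_nat_of_le_succ (baseTower_succ_le U)

private theorem baseClosure_countable {s : Set K} (hs : s.Countable) :
    Countable (Subfield.closure s) := by
  rw [← Cardinal.mk_le_aleph0_iff]
  refine (Subfield.cardinalMk_closure_le_max s).trans ?_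
  exact max_le (Cardinal.mk_le_aleph0_iff.mpr hs.to_subtype) le_rfl

private theorem baseTower_countable (j : ℕ) : Countable (baseTower U j) := by
  induction j with
  | zero =>
    have h : (⊥ : Subfield K) = Subfield.closure ∅ := Subfield.closure_empty.symm
    rw [baseTower, h]
    exact baseClosure_countable Set.countable_empty
  | succ j ih =>
    rw [baseTower]
    apply baseClosure_countable
    have := ih
    have := base_countable_poly (baseTower U j) n
    refine Set.Countable.union ?_ (Set.countable_iUnion fun g => ?_)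
    · exact Set.countable_coe_iff.mp ih
    · exact Set.countable_range _

private theorem base_countable : ∃ k : Subfield K, Countable k ∧
    ∀ g : MvPolynomial (Fin n) k,
      (∀ y : Fin n → k, (fun i => (y i : K)) ∈ U → eval y g = 0) →
      ∀ x ∈ U, eval x (map (algebraMap k K) g) = 0 := by
  classical
  have hdir : Directed (· ≤ ·) (baseTower U) := (baseTower_mono U).directed_le
  refine ⟨⨆ j, baseTower U j, ?_, ?_⟩
  · have h1 : ((⨆ j, baseTower U j : Subfield K) : Set K) = ⋃ j, (baseTower U j : Set K) :=
      Subfield.coe_iSup_of_directed hdir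
    have h2 : ((⨆ j, baseTower U j : Subfield K) : Set K).Countable := by
      rw [h1]
      exact Set.countable_iUnion fun j => Set.countable_coe_iff.mp (baseTower_countable U j)
    exact h2.to_subtype
  · intro g hg x hx
    by_contra hne
    -- the coefficients are in one of the fields
    have hco : ∀ m ∈ g.support, ∃ j, ((g.coeff m : (⨆ j, baseTower U j : Subfield K)) : K) ∈
        baseTower U j := by
      intro m _
      exact (Subfield.mem_iSup_of_directed hdir).mp (g.coeff m).2
    choose! J hJ using hco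
    let N := g.support.sup J
    have hN : ∀ m ∈ g.support, ((g.coeff m : (⨆ j, baseTower U j : Subfield K)) : K) ∈
        baseTower U N := fun m hm =>
      baseTower_mono U (Finset.le_sup hm) (hJ m hm)
    have hN' : ∀ m, ((g.coeff m : (⨆ j, baseTower U j : Subfield K)) : K) ∈
        baseTower U N := by
      intro m
      by_cases hm : m ∈ g.support
      · exact hN m hm
      · rw [MvPolynomial.notMem_support_iff.mp hm]
        exact (baseTower U N).zero_mem
    -- the polynomial over that field
    let g' : MvPolynomial (Fin n) (baseTower U N) :=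
      ∑ m ∈ g.support, monomial m (⟨_, hN' m⟩ : baseTower U N)
    have hg' : map (algebraMap (baseTower U N) K) g' =
        map (algebraMap (⨆ j, baseTower U j : Subfield K) K) g := by
      conv_rhs => rw [g.as_sum]
      rw [map_sum, map_sum]
      refine Finset.sum_congr rfl fun m _ => ?_
      rw [map_monomial, map_monomial]
      rfl
    obtain ⟨hw1, hw2⟩ := baseWit_spec U (map (algebraMap (baseTower U N) K) g')
      ⟨x, hx, by rw [hg']; exact hne⟩
    have hw3 : ∀ i, baseWit U (map (algebraMap (baseTower U N) K) g') i ∈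
        (⨆ j, baseTower U j : Subfield K) := by
      intro i
      have h1 : baseWit U (map (algebraMap (baseTower U N) K) g') i ∈ baseTower U (N + 1) := by
        rw [baseTower]
        apply Subfield.subset_closure
        right
        exact Set.mem_iUnion.mpr ⟨g', ⟨i, rfl⟩⟩
      exact (le_iSup (baseTower U) (N + 1)) h1
    revert hw1 hw2 hw3
    generalize baseWit U (map (algebraMap (baseTower U N) K) g') = w
    intro hw1 hw2 hw3
    have h2 := hg (fun i => ⟨w i, hw3 i⟩) hw1
    apply hw2
    rw [hg', MvPolynomial.eval_map]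
    have h4 := MvPolynomial.eval₂_comp_left (algebraMap (⨆ j, baseTower U j : Subfield K) K)
      (RingHom.id _) (fun i => (⟨w i, hw3 i⟩ : (⨆ j, baseTower U j : Subfield K))) g
    have h5 : eval₂ (RingHom.id _)
        (fun i => (⟨w i, hw3 i⟩ : (⨆ j, baseTower U j : Subfield K))) g = 0 := h2
    rw [h5, map_zero] at h4
    exact h4.symm

end tower

section decomp

variable {k : Type*} {F : Type*} [Field k] [Field F] [Algebra k F] {n : ℕ} {ι : Type*}
  (e : Basis ι k F)

/-- The coordinates of a polynomial. -/
private noncomputable def baseCo (b : ι) (f : MvPolynomial (Fin n) F) : MvPolynomial (Fin n) k :=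
  ∑ m ∈ f.support, monomial m (e.repr (f.coeff m) b)

private theorem baseCo_coeff (b : ι) (f : MvPolynomial (Fin n) F) (m : Fin n →₀ ℕ) :
    (baseCo e b f).coeff m = e.repr (f.coeff m) b := by
  classical
  unfold baseCo
  rw [MvPolynomial.coeff_sum]
  simp only [MvPolynomial.coeff_monomial]
  rw [Finset.sum_ite_eq']
  split_ifs with h
  · rfl
  · rw [MvPolynomial.notMem_support_iff.mp h]; simp

private theorem baseCo_vars (b : ι) (f : MvPolynomial (Fin n) F) :
    (baseCo e b f).vars ⊆ f.vars := by
  intro i hi
  rw [MvPolynomial.mem_vars_iff_mem_support] at hi ⊢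
  obtain ⟨m, hm, him⟩ := hi
  refine ⟨m, ?_, him⟩
  rw [MvPolynomial.mem_support_iff] at hm ⊢
  intro h
  apply hm
  rw [baseCo_coeff, h]; simp

private theorem baseCo_exists (f : MvPolynomial (Fin n) F) (hf : f ≠ 0) :
    ∃ b, baseCo e b f ≠ 0 := by
  obtain ⟨m, hm⟩ := MvPolynomial.ne_zero_iff.mp hf
  have h1 : e.repr (f.coeff m) ≠ 0 := by
    intro h
    exact hm (e.repr.map_eq_zero_iff.mp h)
  obtain ⟨b, hb⟩ := Finsupp.ne_iff.mp h1
  refine ⟨b, fun h => hb ?_⟩
  rw [← baseCo_coeff, h]; simp

private theorem baseCo_eval (b : ι) (f : MvPolynomial (Fin n) F) (y : Fin n → k) :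
    e.repr (eval (fun i => algebraMap k F (y i)) f) b = eval y (baseCo e b f) := by
  classical
  unfold baseCo
  rw [MvPolynomial.eval_eq, map_sum, map_sum, Finsupp.finsetSum_apply]
  refine Finset.sum_congr rfl fun m _ => ?_
  rw [MvPolynomial.eval_monomial, Finsupp.prod_fintype _ _ (fun i => by simp)]
  have h1 : (∏ i : Fin n, (algebraMap k F (y i)) ^ m i) =
      algebraMap k F (∏ i, y i ^ m i) := by
    rw [map_prod]
    refine Finset.prod_congr rfl fun i _ => ?_
    rw [map_pow]
  have h2 : (∏ i ∈ m.support, (algebraMap k F (y i)) ^ m i) =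
      ∏ i : Fin n, (algebraMap k F (y i)) ^ m i := by
    refine Finset.prod_subset (Finset.subset_univ _) fun i _ hi => ?_
    rw [Finsupp.notMem_support_iff.mp hi, pow_zero]
  rw [h2, h1, mul_comm, ← Algebra.smul_def, map_smul, Finsupp.smul_apply, smul_eq_mul, mul_comm]

private theorem baseCo_zero_iff (f : MvPolynomial (Fin n) F) (y : Fin n → k) :
    eval (fun i => algebraMap k F (y i)) f = 0 ↔ ∀ b, eval y (baseCo e b f) = 0 := by
  constructor
  · intro h b
    rw [← baseCo_eval, h]; simp
  · intro h
    rw [← e.repr.map_eq_zero_iff]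
    ext b
    rw [baseCo_eval, h]; simp

end decomp

private theorem base_zpow {F : Type*} [Field F] {n : ℕ} (a : Fin n → ℤ) (x : Fin n → F)
    (hx : ∀ i, x i ≠ 0) :
    (∏ i, x i ^ a i = 1) ↔ (∏ i, x i ^ (a i).toNat = ∏ i, x i ^ (-a i).toNat) := by
  have h1 : ∀ i, x i ^ a i = x i ^ (a i).toNat / x i ^ (-a i).toNat := by
    intro i
    conv_lhs => rw [← Int.toNat_sub_toNat_neg (a i)]
    rw [zpow_sub₀ (hx i), zpow_natCast, zpow_natCast]
  have h2 : ∏ i, x i ^ (-a i).toNat ≠ 0 :=
    Finset.prod_ne_zero_iff.mpr fun i _ => pow_ne_zero _ (hx i)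
  rw [Finset.prod_congr rfl (fun i _ => h1 i), Finset.prod_div_distrib, div_eq_one_iff_eq h2]

/-- The ideal of the polynomials vanishing on a set. -/
private def baseIdeal {n : ℕ} (V : Set (Fin n → ℂ)) : Ideal (MvPolynomial (Fin n) ℂ) where
  carrier := {f | ∀ x ∈ V, eval x f = 0}
  add_mem' := by
    intro a b ha hb x hx
    rw [map_add, ha x hx, hb x hx, add_zero]
  zero_mem' := by
    intro x _
    rw [map_zero]
  smul_mem' := by
    intro c a ha x hx
    rw [smul_eq_mul, map_mul, ha x hx, mul_zero]

private theorem baseIdeal_mem {n : ℕ} {V : Set (Fin n → ℂ)} {f : MvPolynomial (Fin n) ℂ} :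
    f ∈ baseIdeal V ↔ ∀ x ∈ V, eval x f = 0 := Iff.rfl

/-- The Krull dimension of an affine domain over `ℂ` is at most `d` when every polynomial ring in
more than `d` of the variables meets the ideal. -/
private theorem base_dim {n d : ℕ} (P : Ideal (MvPolynomial (Fin n) ℂ)) (hP : P.IsPrime)
    (h : ∀ I : Finset (Fin n), d < I.card → ∃ f ∈ P, f ≠ 0 ∧ f.vars ⊆ I) :
    ringKrullDim (MvPolynomial (Fin n) ℂ ⧸ P) ≤ (d : WithBot ℕ∞) := by
  classical
  let R := MvPolynomial (Fin n) ℂ ⧸ P
  have : IsDomain R := Ideal.Quotient.isDomain P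
  have : FaithfulSMul ℂ R :=
    (faithfulSMul_iff_algebraMap_injective ℂ R).mpr (algebraMap ℂ R).injective
  let z : Fin n → R := fun l => Ideal.Quotient.mk P (X l)
  obtain ⟨L, hL1, hL2, -⟩ := CIT8.exists_maxIndep ℂ z
  have hall : ∀ r : R, r ∈ CIT8.acl ℂ (Set.range (fun l : L => z l)) := by
    intro r
    obtain ⟨f, rfl⟩ := Ideal.Quotient.mk_surjective r
    induction f using MvPolynomial.induction_on with
    | C a => exact CIT8.acl_algebraMap _ a
    | add p q hp hq =>
      rw [map_add]
      exact CIT8.acl_add hp hq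
    | mul_X p l hp =>
      rw [map_mul]
      exact CIT8.acl_mul hp (hL2 l)
  have hdim := CIT8.ringKrullDim_eq_card (fun l : L => z l) hL1 hall
  have hcard : L.card ≤ d := by
    by_contra hlt
    push Not at hlt
    obtain ⟨f, hfP, hf0, hfL⟩ := h L hlt
    apply hf0
    have h1 : AlgebraicIndependent ℂ
        (z ∘ (Subtype.val : {i // i ∈ (L : Set (Fin n))} → Fin n)) := hL1
    refine algebraicIndependent_comp_subtype.mp h1 f ?_ ?_
    · rw [MvPolynomial.mem_supported]
      exact_mod_cast hfL
    · have h2 : aeval z f = Ideal.Quotient.mk P f := by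
        have h3 : (aeval z : MvPolynomial (Fin n) ℂ →ₐ[ℂ] R) = Ideal.Quotient.mkₐ ℂ P := by
          apply MvPolynomial.algHom_ext
          intro i
          rw [aeval_X]
          rfl
        rw [h3]; rfl
      rw [h2]
      exact Ideal.Quotient.eq_zero_iff_mem.mpr hfP
  have hdim' : ringKrullDim R = (L.card : WithBot ℕ∞) := by
    rw [hdim]; simp
  show ringKrullDim R ≤ _
  rw [hdim']
  exact_mod_cast hcard

/-- The statement of the conjecture for a set `U` of unlikely points with coordinates in a field
of characteristic zero, whose closure is irreducible and of dimension at most `d`. -/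
theorem base (hC : FullC) (K : Type u) [Field K] [CharZero K] (n d : ℕ) (U : Set (Fin n → K))
    (h0 : ∀ x ∈ U, ∀ i, x i ≠ 0) (hne : U.Nonempty)
    (hp : ∀ f g : MvPolynomial (Fin n) K, (∀ x ∈ U, eval x (f * g) = 0) →
      (∀ x ∈ U, eval x f = 0) ∨ (∀ x ∈ U, eval x g = 0))
    (hd : ∀ I : Finset (Fin n), d < I.card → ∃ f : MvPolynomial (Fin n) K, f ≠ 0 ∧ f.vars ⊆ I ∧
      ∀ x ∈ U, eval x f = 0)
    (hU : ∀ x ∈ U, ∃ Λ : Submodule ℤ (Fin n → ℤ), d + (n - finrank ℤ Λ) + 1 ≤ n ∧
      ∀ a ∈ Λ, ∏ i, x i ^ a i = 1) :
    ∃ a : Fin n → ℤ, a ≠ 0 ∧ ∀ x ∈ U, ∏ i, x i ^ a i = 1 := by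
  classical
  obtain ⟨k, hkc, hk⟩ := base_countable U
  have := hkc
  obtain ⟨φ⟩ := base_embedding k
  have hφ : Function.Injective φ := φ.injective
  let algC : Algebra k ℂ := φ.toAlgebra
  have hmapC : ∀ c : k, algebraMap k ℂ c = φ c := fun _ => rfl
  let Uk : Set (Fin n → k) := {y | (fun i => (y i : K)) ∈ U}
  have hUk : ∀ y ∈ Uk, (fun i => (y i : K)) ∈ U := fun y hy => hy
  -- nonempty
  have hne' : Uk.Nonempty := by
    by_contra hemp
    obtain ⟨x, hx⟩ := hne
    have h1 := hk 1 (fun y hy => (hemp ⟨y, hy⟩).elim) x hx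
    rw [map_one, map_one] at h1
    exact one_ne_zero h1
  -- evaluation of the image of a polynomial over k in K
  have hevK : ∀ (g : MvPolynomial (Fin n) k) (y : Fin n → k),
      eval (fun i => (y i : K)) (map (algebraMap k K) g) = ((eval y g : k) : K) := by
    intro g y
    rw [MvPolynomial.eval_map]
    have := MvPolynomial.eval₂_comp_left (algebraMap k K) (RingHom.id k) y g
    exact this.symm
  have hevC : ∀ (g : MvPolynomial (Fin n) k) (y : Fin n → k),
      eval (fun i => φ (y i)) (map φ g) = φ (eval y g) := by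
    intro g y
    rw [MvPolynomial.eval_map]
    have := MvPolynomial.eval₂_comp_left φ (RingHom.id k) y g
    exact this.symm
  let eK : Basis _ k K := Basis.ofVectorSpace k K
  let eC : Basis _ k ℂ := Basis.ofVectorSpace k ℂ
  let V : Set (Fin n → ℂ) := (fun (y : Fin n → k) (i : Fin n) => φ (y i)) '' Uk
  have hV : ∀ f : MvPolynomial (Fin n) ℂ, f ∈ baseIdeal V ↔
      ∀ y ∈ Uk, eval (fun i => φ (y i)) f = 0 := by
    intro f
    rw [baseIdeal_mem]
    constructor
    · intro h y hy
      exact h _ ⟨y, hy, rfl⟩
    · rintro h _ ⟨y, hy, rfl⟩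
      exact h y hy
  -- not in the ideal
  have hnot : ∀ f : MvPolynomial (Fin n) ℂ, f ∉ baseIdeal V →
      ∃ b, ¬ ∀ x ∈ U, eval x (map (algebraMap k K) (baseCo eC b f)) = 0 := by
    intro f hf
    rw [hV] at hf
    push Not at hf
    obtain ⟨y, hy, hyf⟩ := hf
    have h1 := (baseCo_zero_iff eC f y).not.mp hyf
    push Not at h1
    obtain ⟨b, hb⟩ := h1
    refine ⟨b, fun h => hb ?_⟩
    have h2 := h _ hy
    rw [hevK] at h2
    exact_mod_cast h2
  have hprime : (baseIdeal V).IsPrime := by
    refine Ideal.isPrime_iff.mpr ⟨?_, ?_⟩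
    · rw [Ideal.ne_top_iff_one, hV]
      intro h
      obtain ⟨y, hy⟩ := hne'
      have := h y hy
      rw [map_one] at this
      exact one_ne_zero this
    · intro f g hfg
      by_contra hcon
      push Not at hcon
      obtain ⟨b, hb⟩ := hnot f hcon.1
      obtain ⟨c, hc⟩ := hnot g hcon.2
      have h1 : ¬ ∀ x ∈ U, eval x (map (algebraMap k K) (baseCo eC b f * baseCo eC c g)) = 0 := by
        intro h
        rw [map_mul] at h
        rcases hp _ _ h with h2 | h2
        · exact hb h2
        · exact hc h2
      have h2 : ¬ ∀ y : Fin n → k, (fun i => (y i : K)) ∈ U →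
          eval y (baseCo eC b f * baseCo eC c g) = 0 := fun h => h1 (hk _ h)
      push Not at h2
      obtain ⟨y, hy, hyn⟩ := h2
      rw [map_mul] at hyn
      have h3 := left_ne_zero_of_mul hyn
      have h4 := right_ne_zero_of_mul hyn
      have h5 : eval (fun i => φ (y i)) f ≠ 0 := fun h =>
        h3 ((baseCo_zero_iff eC f y).mp h b)
      have h6 : eval (fun i => φ (y i)) g ≠ 0 := fun h =>
        h4 ((baseCo_zero_iff eC g y).mp h c)
      have h7 := (hV (f * g)).mp hfg y hy
      rw [map_mul] at h7
      exact (mul_ne_zero h5 h6) h7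
  have hcoord : ∀ y ∈ Uk, ∀ i, φ (y i) ≠ 0 := by
    intro y hy i h
    have h1 : y i = 0 := hφ (by rw [h, map_zero])
    exact h0 _ hy i (by show ((y i : k) : K) = 0; rw [h1]; rfl)
  have hX : (∏ i : Fin n, (MvPolynomial.X i : MvPolynomial (Fin n) ℂ)) ∉ baseIdeal V := by
    intro h
    obtain ⟨y, hy⟩ := hne'
    have h1 := (hV _).mp h y hy
    rw [map_prod] at h1
    simp only [eval_X] at h1
    obtain ⟨i, _, hi⟩ := Finset.prod_eq_zero_iff.mp h1
    exact hcoord y hy i hi
  have hdim : ringKrullDim (MvPolynomial (Fin n) ℂ ⧸ baseIdeal V) ≤ (d : WithBot ℕ∞) := by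
    apply base_dim _ hprime
    intro I hI
    obtain ⟨f, hf0, hfI, hfU⟩ := hd I hI
    obtain ⟨b, hb⟩ := baseCo_exists eK f hf0
    refine ⟨map φ (baseCo eK b f), ?_, ?_, ?_⟩
    · rw [hV]
      intro y hy
      rw [hevC]
      have h1 : eval y (baseCo eK b f) = 0 := by
        have h2 : eval (fun i => algebraMap k K (y i)) f = 0 := hfU _ hy
        exact (baseCo_zero_iff eK f y).mp h2 b
      rw [h1, map_zero]
    · intro h
      apply hb
      apply MvPolynomial.map_injective φ hφ
      rw [h, map_zero]
    · exact (MvPolynomial.vars_map (f := φ) (p := baseCo eK b f)).trans ((baseCo_vars eK b f).trans hfI)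
  obtain ⟨a, ha0, ha⟩ := hC n (baseIdeal V) hprime hX (by
    intro f hf x _ hx
    apply hx
    rw [hV]
    intro y hy
    refine hf _ (hcoord y hy) (fun g hg => (hV g).mp hg y hy) ?_
    obtain ⟨Λ, hΛ, hΛ'⟩ := hU _ hy
    refine ⟨Λ, ?_, ?_⟩
    · refine (add_le_add_left (add_le_add_left hdim _) _).trans ?_
      exact_mod_cast hΛ
    · intro a ha
      have h1 : (∏ i, ((y i : k) : K) ^ a i) = 1 := hΛ' a ha
      have h2 : (∏ i, (y i) ^ a i) = (1 : k) := by
        apply Subtype.val_injective
        push_cast
        exact h1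
      have h3 := congrArg φ h2
      rw [map_prod, map_one] at h3
      simpa [map_zpow₀] using h3)
  refine ⟨a, ha0, ?_⟩
  -- the polynomial
  intro x hx
  rw [base_zpow a x (h0 x hx)]
  have h1 := hk (∏ i, X i ^ (a i).toNat - ∏ i, X i ^ (-a i).toNat) (by
    intro y hy
    have h2 := ha _ (hcoord y hy) (fun g hg => (hV g).mp hg y hy)
    have h3 : (∏ i, (y i) ^ a i) = (1 : k) := by
      apply hφ
      rw [map_prod, map_one]
      simpa [map_zpow₀] using h2
    have h4 : ∀ i, y i ≠ 0 := by
      intro i h
      exact hcoord y hy i (by rw [h, map_zero])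
    rw [base_zpow a y h4] at h3
    rw [map_sub, map_prod, map_prod]
    simp only [map_pow, eval_X]
    rw [h3, sub_self]) x hx
  rw [map_sub, map_prod, map_prod, map_sub, map_prod, map_prod] at h1
  simp only [map_pow, map_X, eval_X] at h1
  exact sub_eq_zero.mp h1

end Pool.Agent.ZT
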