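import Mathlib

set_option autoImplicit false

/-! MP_c95b3b_ag in geometric form: the Zariski topology of the torus `(Kˣ)^n`. -/

namespace Pool.Agent.ZT

open MvPolynomial Topology

universe u

variable {K : Type u} [Field K] {n : ℕ}

/-- The set of the common zeros in the torus `(Kˣ)^n` of the polynomials in `S`. -/
def zeros (S : Set (MvPolynomial (Fin n) K)) : Set (Fin n → Kˣ) :=
  {x | ∀ f ∈ S, eval (fun i => (x i : K)) f = 0}

/-- The ideal of the polynomials which vanish on `Z`. -/
def van (Z : Set (Fin n → Kˣ)) : Ideal (MvPolynomial (Fin n) K) where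
  carrier := {f | ∀ x ∈ Z, eval (fun i => (x i : K)) f = 0}
  add_mem' := by
    intro f g hf hg x hx
    rw [map_add, hf x hx, hg x hx, add_zero]
  zero_mem' := fun x _ => map_zero _
  smul_mem' := by
    intro c f hf x hx
    rw [smul_eq_mul, map_mul, hf x hx, mul_zero]

theorem mem_van {Z : Set (Fin n → Kˣ)} {f : MvPolynomial (Fin n) K} :
    f ∈ van Z ↔ ∀ x ∈ Z, eval (fun i => (x i : K)) f = 0 := Iff.rfl

variable (K n) in
/-- The Zariski topology of the torus `(Kˣ)^n`: the closed sets are the sets `zeros S`. -/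
@[reducible] def zariski : TopologicalSpace (Fin n → Kˣ) :=
  TopologicalSpace.ofClosed (Set.range zeros)
    ⟨{1}, by
      ext x
      simp [zeros]⟩
    (by
      intro A hA
      refine ⟨⋃ (Z ∈ A), (van Z : Set _), ?_⟩
      ext x
      simp only [zeros, Set.mem_iUnion, Set.mem_ofPred_eq, Set.mem_sInter]
      constructor
      · intro h Z hZ
        obtain ⟨S, rfl⟩ := hA hZ
        intro f hf
        exact h f ⟨_, hZ, fun y hy => hy f hf⟩
      · rintro h f ⟨Z, hZ, hf⟩
        exact hf x (h Z hZ))
    (by
      rintro _ ⟨S, rfl⟩ _ ⟨T, rfl⟩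
      refine ⟨{f | ∃ g ∈ S, ∃ h ∈ T, f = g * h}, ?_⟩
      ext x
      simp only [zeros, Set.mem_ofPred_eq, Set.mem_union]
      constructor
      · intro h
        by_contra hcon
        push Not at hcon
        obtain ⟨⟨g, hg, hg0⟩, ⟨h', hh', hh0⟩⟩ := hcon
        have := h _ ⟨g, hg, h', hh', rfl⟩
        rw [map_mul] at this
        exact (mul_ne_zero hg0 hh0) this
      · rintro (h | h) f ⟨g, hg, h', hh', rfl⟩
        · rw [map_mul, h g hg, zero_mul]
        · rw [map_mul, h h' hh', mul_zero])

/-- The dimension of a subset of the torus: the Krull dimension of the topological space `Z` (the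
supremum of the lengths of the chains of irreducible closed subsets), for the Zariski topology. -/
noncomputable def zdim (Z : Set (Fin n → Kˣ)) : WithBot ℕ∞ :=
  @topologicalKrullDim Z (TopologicalSpace.induced Subtype.val (zariski K n))

theorem isClosed_zeros (S : Set (MvPolynomial (Fin n) K)) : IsClosed[zariski K n] (zeros S) := by
  rw [← @isOpen_compl_iff _ _ (zariski K n)]
  exact ⟨S, (compl_compl _).symm⟩

theorem isClosed_iff {Z : Set (Fin n → Kˣ)} :
    IsClosed[zariski K n] Z ↔ ∃ S : Set (MvPolynomial (Fin n) K), Z = zeros S := by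
  constructor
  · intro h
    rw [← @isOpen_compl_iff _ _ (zariski K n)] at h
    obtain ⟨S, hS⟩ := h
    exact ⟨S, by rw [hS, compl_compl]⟩
  · rintro ⟨S, rfl⟩
    exact isClosed_zeros S

theorem subset_zeros_van (Z : Set (Fin n → Kˣ)) : Z ⊆ zeros (van Z : Set _) :=
  fun x hx _ hf => hf x hx

theorem closure_eq (Z : Set (Fin n → Kˣ)) : closure[zariski K n] Z = zeros (van Z : Set _) := by
  apply Set.Subset.antisymm
  · exact @closure_minimal _ (zariski K n) _ _ (subset_zeros_van Z) (isClosed_zeros _)
  · intro x hx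
    have h1 : IsClosed[zariski K n] (closure[zariski K n] Z) := @isClosed_closure _ (zariski K n) _
    obtain ⟨S, hS⟩ := isClosed_iff.1 h1
    rw [hS]
    intro f hf
    refine hx f ?_
    intro y hy
    have h2 : y ∈ closure[zariski K n] Z := (@subset_closure _ (zariski K n) Z) hy
    rw [hS] at h2
    exact h2 f hf

theorem eq_zeros_van {Z : Set (Fin n → Kˣ)} (hZ : IsClosed[zariski K n] Z) :
    Z = zeros (van Z : Set _) := by
  rw [← closure_eq, @IsClosed.closure_eq _ (zariski K n) _ hZ]

theorem isIrreducible_iff (Z : Set (Fin n → Kˣ)) :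
    @IsIrreducible _ (zariski K n) Z ↔ (van Z).IsPrime := by
  constructor
  · intro h
    refine ⟨?_, ?_⟩
    · intro htop
      obtain ⟨x, hx⟩ := h.1
      have : (1 : MvPolynomial (Fin n) K) ∈ van Z := by rw [htop]; trivial
      have := this x hx
      rw [map_one] at this
      exact one_ne_zero this
    · intro f g hfg
      have h2 := (@isPreirreducible_iff_isClosed_union_isClosed _ (zariski K n) _).1 h.2
        (zeros {f}) (zeros {g}) (isClosed_zeros _) (isClosed_zeros _) (by
          intro x hx
          have h3 := hfg x hx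
          rw [map_mul, mul_eq_zero] at h3
          rcases h3 with h3 | h3
          · left
            rintro f' rfl
            exact h3
          · right
            rintro f' rfl
            exact h3)
      rcases h2 with h2 | h2
      · left
        exact fun x hx => h2 hx f rfl
      · right
        exact fun x hx => h2 hx g rfl
  · intro h
    refine ⟨?_, ?_⟩
    · by_contra hne
      rw [Set.not_nonempty_iff_eq_empty] at hne
      apply h.ne_top
      rw [Ideal.eq_top_iff_one, hne]
      rintro x ⟨⟩
    · rw [@isPreirreducible_iff_isClosed_union_isClosed _ (zariski K n)]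
      intro Z1 Z2 h1 h2 hZ
      obtain ⟨S, rfl⟩ := isClosed_iff.1 h1
      obtain ⟨T, rfl⟩ := isClosed_iff.1 h2
      by_contra hcon
      push Not at hcon
      obtain ⟨hS, hT⟩ := hcon
      rw [Set.not_subset] at hS hT
      obtain ⟨x, hx, hxS⟩ := hS
      obtain ⟨y, hy, hyT⟩ := hT
      simp only [zeros, Set.mem_ofPred_eq, not_forall] at hxS hyT
      obtain ⟨f, hf, hfx⟩ := hxS
      obtain ⟨g, hg, hgy⟩ := hyT
      have h3 : f * g ∈ van Z := by
        intro z hz
        rw [map_mul]
        rcases hZ hz with h4 | h4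
        · rw [h4 f hf, zero_mul]
        · rw [h4 g hg, mul_zero]
      rcases h.mem_or_mem h3 with h4 | h4
      · exact hfx (h4 x hx)
      · exact hgy (h4 y hy)

theorem van_closure (Z : Set (Fin n → Kˣ)) : van (zeros (van Z : Set (MvPolynomial (Fin n) K))) =
    van Z := by
  apply le_antisymm
  · intro f hf x hx
    exact hf x (subset_zeros_van Z hx)
  · intro f hf x hx
    exact hx f hf

/-- a chain of irreducible closed subsets bounds the dimension -/
theorem le_zdim (Z : Set (Fin n → Kˣ)) (d : ℕ) (W : ℕ → Set (Fin n → Kˣ))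
    (hc : ∀ j ≤ d, IsClosed[zariski K n] (W j))
    (hi : ∀ j ≤ d, @IsIrreducible _ (zariski K n) (W j)) (hs : ∀ j ≤ d, W j ⊆ Z)
    (hlt : ∀ j < d, W j ⊂ W (j + 1)) : (d : WithBot ℕ∞) ≤ zdim Z := by
  let τ : TopologicalSpace (Fin n → Kˣ) := zariski K n
  let τ' : TopologicalSpace Z := TopologicalSpace.induced Subtype.val (zariski K n)
  have hcl : ∀ j ≤ d, @IsClosed Z τ' (Subtype.val ⁻¹' W j) := by
    intro j hj
    exact (@isClosed_induced_iff _ _ τ _ Subtype.val).2 ⟨W j, hc j hj, rfl⟩
  have hir : ∀ j ≤ d, @IsIrreducible Z τ' (Subtype.val ⁻¹' W j) := by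
    intro j hj
    refine ⟨?_, ?_⟩
    · obtain ⟨x, hx⟩ := (hi j hj).1
      exact ⟨⟨x, hs j hj hx⟩, hx⟩
    · rw [@isPreirreducible_iff_isClosed_union_isClosed Z τ']
      intro A B hA hB hAB
      obtain ⟨A', hA', rfl⟩ := (@isClosed_induced_iff _ _ τ _ Subtype.val).1 hA
      obtain ⟨B', hB', rfl⟩ := (@isClosed_induced_iff _ _ τ _ Subtype.val).1 hB
      have h1 := (@isPreirreducible_iff_isClosed_union_isClosed _ τ _).1 (hi j hj).2 A' B' hA' hB'
        (by
          intro x hx
          exact hAB (a := ⟨x, hs j hj hx⟩) hx)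
      rcases h1 with h1 | h1
      · exact Or.inl fun x hx => h1 hx
      · exact Or.inr fun x hx => h1 hx
  let s : LTSeries (@TopologicalSpace.IrreducibleCloseds Z τ') :=
    { length := d
      toFun := fun j => ⟨Subtype.val ⁻¹' W j, hir j (Nat.lt_succ_iff.1 j.2),
        hcl j (Nat.lt_succ_iff.1 j.2)⟩
      step := by
        intro j
        have h1 := hlt j j.2
        refine lt_of_le_of_ne (show (Subtype.val ⁻¹' W (j : ℕ) : Set Z) ⊆
          Subtype.val ⁻¹' W ((j : ℕ) + 1) from fun x hx => h1.1 hx) ?_
        intro h2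
        apply h1.2
        intro x hx
        have h3 : (⟨x, hs (j + 1) (Nat.succ_le_of_lt j.2) hx⟩ : Z) ∈
            (Subtype.val ⁻¹' W (j : ℕ) : Set Z) := by
          have h5 : (Subtype.val ⁻¹' W (j : ℕ) : Set Z) = Subtype.val ⁻¹' W ((j : ℕ) + 1) := h2
          rw [h5]
          exact hx
        exact h3 }
  exact Order.LTSeries.length_le_krullDim s

end Pool.Agent.ZT
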