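import Mathlib
import Pool.Agent.Lib.MP_c95b3b_ag_G.Defs

set_option autoImplicit false

/-! MP_c95b3b_ag in geometric form: the dimension of a closed subgroup of the torus.

Proof of `mem_of_chr`. `H = zeros (van H)` (`eq_zeros_van`); let `f ∈ van H`, show `f (x) = 0`.
For an exponent `m : Fin n →₀ ℕ` let `χ m : H →* K` be the restriction of the monomial,
`h ↦ ∏ i, (h i : K) ^ m i`. Then `∑ m ∈ f.support, coeff m f • χ m = 0` as functions on `H`. Distinct
characters are linearly independent (`linearIndependent_monoidHom H K`), so for each character `ψ`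
the sum of `coeff m f` over the `m ∈ f.support` with `χ m = ψ` is `0` (group the sum with
`Finset.sum_fiberwise` or `Finset.sum_comp`). If `χ m = χ m'` then `m - m' ∈ chr H`, so
`∏ x i ^ m i = ∏ x i ^ m' i` by `hx`. So `f (x) = ∑ m, coeff m f * x ^ m` is, summed over the fibres
of `χ`, equal to `0`.

Proof of `le_zdim_subgroup`. Let `d = n - rank (chr H)`. The lattice `C` of the `b : Fin n → ℤ` with
`∑ i, a i * b i = 0` for all `a ∈ chr H` has rank `≥ d` (rank nullity over `ℤ` or over `ℚ`): choose
`b : Fin d → (Fin n → ℤ)` linearly independent over `ℤ` in `C`. For `t : Kˣ` and `v : Fin n → ℤ` put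
`lam v t = fun i => t ^ v i`, a point of the torus; it is in `H` for `v ∈ C` by `mem_of_chr`. Let
`A j` be the set of the products `∏ l : Fin d with l < j, lam (b l) (t l)`, `t : Fin d → Kˣ`, and
`W j = closure (A j) = zeros (van (A j))` (`closure_eq`), for `j ≤ d`. Then `W j ⊆ H` (closed),
`W j ⊆ W (j + 1)`.
 * irreducible: by `isIrreducible_iff` and `van_closure` one has to show that `van (A j)` is prime.
   Induction on `j`; `A 0 = {1}` is a point. Step: `A (j + 1) = {x * lam b t | x ∈ A j}`. For a
   polynomial `f` and `x` in the torus write `f (x * lam b t) = ∑ m, coeff m f * x ^ m * t ^ ⟨m, b⟩`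
   (integer exponents `⟨m, b⟩ = ∑ m i * b i`). For an integer `e` let
   `f_e = ∑ m with ⟨m, b⟩ = e, coeff m f * X ^ m`, again a polynomial, so
   `f (x * lam b t) = ∑ e, f_e (x) * t ^ e`. As `K` is infinite, for given `x` this vanishes for all
   `t` iff all `f_e (x) = 0`. Now let `f * g ∈ van (A (j + 1))`, `f ∉ van (A (j + 1))`,
   `g ∉ van (A (j + 1))`: some `f_e ∉ van (A j)`, some `g_e' ∉ van (A j)`, so by induction
   `f_e * g_e' ∉ van (A j)`, and there is `x ∈ A j` with `f_e (x) ≠ 0` and `g_e' (x) ≠ 0`. So the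
   Laurent polynomials `t ↦ f (x * lam b t)`, `g (x * lam b t)` are both nonzero, but their product
   vanishes for all `t ∈ Kˣ`: each has only finitely many zeros (multiply with a power of `t` and
   use `Polynomial.eq_zero_of_infinite_isRoot`), a contradiction to `K` infinite.
 * `W j ≠ W (j + 1)`: as the `b l` are linearly independent over `ℤ` there is `a : Fin n → ℤ` with
   `∑ a i * b l i = 0` for `l < j` and `∑ a i * b j i ≠ 0` (otherwise `b j` is in the double
   orthogonal of the `b l`, so in their rational span). The polynomial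
   `∏ X i ^ (a i)⁺ - ∏ X i ^ (a i)⁻` is in `van (A j)`, not in `van (A (j + 1))` (take all `t l = 1`
   for `l < j` and `t j` with `t j ^ (∑ a i * b j i) ≠ 1`, possible as `K` is infinite).
Then `le_zdim`. (If you prefer another chain or another proof of irreducibility, feel free; only the
two statements and `chr` count.) -/

namespace Pool.Agent.ZT

open MvPolynomial Topology Module

universe u

variable {K : Type u} [Field K] {n : ℕ}

/-- the exponents of the characters which are trivial on `H` -/
def chr (H : Subgroup (Fin n → Kˣ)) : Submodule ℤ (Fin n → ℤ) where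
  carrier := {a | ∀ h ∈ H, ∏ i, h i ^ a i = 1}
  add_mem' := by
    intro a b ha hb h hh
    simp only [Pi.add_apply, zpow_add, Finset.prod_mul_distrib, ha h hh, hb h hh, mul_one]
  zero_mem' := by
    intro h hh
    simp
  smul_mem' := by
    intro c a ha h hh
    have h1 : ∏ i, h i ^ (c • a) i = (∏ i, h i ^ a i) ^ c := by
      rw [← Finset.prod_zpow]
      refine Finset.prod_congr rfl fun i _ => ?_
      rw [Pi.smul_apply, smul_eq_mul, mul_comm, zpow_mul]
    rw [h1, ha h hh, one_zpow]

private theorem zpow_prod_sub (x : Fin n → Kˣ) (m m' : Fin n →₀ ℕ) :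
    ∏ i, x i ^ ((m i : ℤ) - (m' i : ℤ)) = (∏ i, x i ^ m i) / ∏ i, x i ^ m' i := by
  rw [← Finset.prod_div_distrib]
  refine Finset.prod_congr rfl fun i _ => ?_
  rw [zpow_sub, zpow_natCast, zpow_natCast, div_eq_mul_inv]

/-- monomials as characters -/
private def monH (H : Subgroup (Fin n → Kˣ)) (m : Fin n →₀ ℕ) : H →* K where
  toFun h := ((∏ i, (h : Fin n → Kˣ) i ^ m i : Kˣ) : K)
  map_one' := by simp
  map_mul' a b := by simp [mul_pow, Finset.prod_mul_distrib]

private theorem eval_eq_sum (x : Fin n → Kˣ) (f : MvPolynomial (Fin n) K) :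
    eval (fun i => (x i : K)) f = ∑ m ∈ f.support, coeff m f * ((∏ i, x i ^ m i : Kˣ) : K) := by
  rw [MvPolynomial.eval_eq']
  refine Finset.sum_congr rfl fun m _ => ?_
  congr 1
  rw [Units.coe_prod]
  exact Finset.prod_congr rfl fun i _ => by rw [Units.val_pow_eq_pow_val]

/-- A closed subgroup is defined by characters (independence of characters). -/
theorem mem_of_chr (H : Subgroup (Fin n → Kˣ)) (hH : IsClosed[zariski K n] (H : Set (Fin n → Kˣ)))
    (x : Fin n → Kˣ) (hx : ∀ a ∈ chr H, ∏ i, x i ^ a i = 1) : x ∈ H := by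
  classical
  have h1 : x ∈ zeros (van (H : Set (Fin n → Kˣ)) : Set (MvPolynomial (Fin n) K)) := by
    intro f hf
    rw [eval_eq_sum]
    -- the sums over the fibres of the map to the characters
    have h2 : ∀ ψ ∈ f.support.image (monH H),
        ∑ m ∈ f.support with monH H m = ψ, coeff m f = 0 := by
      have hli := linearIndependent_iff'.1 (linearIndependent_monoidHom H K)
        (f.support.image (monH H)) (fun ψ => ∑ m ∈ f.support with monH H m = ψ, coeff m f) (by
          funext h
          rw [Finset.sum_apply]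
          have h3 := hf h h.2
          rw [eval_eq_sum] at h3
          rw [Pi.zero_apply, ← h3, ← Finset.sum_fiberwise_of_maps_to
            (fun m hm => Finset.mem_image_of_mem (monH H) hm)]
          refine Finset.sum_congr rfl fun ψ _ => ?_
          rw [Pi.smul_apply, smul_eq_mul, Finset.sum_mul]
          refine Finset.sum_congr rfl fun m hm => ?_
          rw [← (Finset.mem_filter.1 hm).2]
          rfl)
      exact hli
    rw [← Finset.sum_fiberwise_of_maps_to (fun m hm => Finset.mem_image_of_mem (monH H) hm)]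
    refine Finset.sum_eq_zero fun ψ hψ => ?_
    obtain ⟨m₀, hm₀, rfl⟩ := Finset.mem_image.1 hψ
    have h4 : ∀ m ∈ f.support.filter (fun m => monH H m = monH H m₀),
        coeff m f * ((∏ i, x i ^ m i : Kˣ) : K) =
          coeff m f * ((∏ i, x i ^ m₀ i : Kˣ) : K) := by
      intro m hm
      have h5 := (Finset.mem_filter.1 hm).2
      have h6 : (fun i => (m i : ℤ) - (m₀ i : ℤ)) ∈ chr H := by
        intro h hh
        rw [zpow_prod_sub, div_eq_one]
        have h7 := congrArg (fun ψ : H →* K => ψ ⟨h, hh⟩) h5
        exact Units.ext h7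
      have h8 := hx _ h6
      rw [zpow_prod_sub, div_eq_one] at h8
      rw [h8]
    rw [Finset.sum_congr rfl h4, ← Finset.sum_mul, h2 _ hψ, zero_mul]
  rw [← eq_zeros_van hH] at h1
  exact h1

/-- the monomial map -/
private def lam {d : ℕ} (c : Fin d → Fin n → ℤ) (t : Fin d → Kˣ) : Fin n → Kˣ :=
  fun i => ∏ l, t l ^ c l i

private theorem lam_prod {d : ℕ} (c : Fin d → Fin n → ℤ) (t : Fin d → Kˣ) (a : Fin n → ℤ) :
    ∏ i, lam c t i ^ a i = ∏ l, t l ^ (∑ i, a i * c l i) := by
  unfold lam
  simp only [← Finset.prod_zpow]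
  rw [Finset.prod_comm]
  refine Finset.prod_congr rfl fun l _ => ?_
  have h1 : ∀ s : Finset (Fin n), ∏ i ∈ s, (t l ^ c l i) ^ a i =
      t l ^ (∑ i ∈ s, a i * c l i) := by
    intro s
    induction s using Finset.induction_on with
    | empty => simp
    | insert i s hi ih =>
      rw [Finset.prod_insert hi, Finset.sum_insert hi, zpow_add, ih, ← zpow_mul,
        mul_comm (c l i)]
  exact h1 Finset.univ

private theorem zpow_eq_one [Infinite K] (m : ℤ) (h : ∀ s : Kˣ, s ^ m = 1) : m = 0 := by
  by_contra hm
  have hk : 0 < m.natAbs := Int.natAbs_pos.2 hm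
  have h1 : ∀ s : Kˣ, s ^ m.natAbs = 1 := by
    intro s
    have h2 := h s
    rcases Int.natAbs_eq m with h3 | h3
    · rw [h3, zpow_natCast] at h2
      exact h2
    · rw [h3, zpow_neg, zpow_natCast, inv_eq_one] at h2
      exact h2
  have h4 : (Polynomial.X * (Polynomial.X ^ m.natAbs - Polynomial.C 1) : Polynomial K) = 0 := by
    refine Polynomial.funext fun s => ?_
    rw [Polynomial.eval_mul, Polynomial.eval_X, Polynomial.eval_sub, Polynomial.eval_pow,
      Polynomial.eval_X, Polynomial.eval_C, Polynomial.eval_zero]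
    by_cases hs : s = 0
    · rw [hs, zero_mul]
    · have h5 := congrArg (fun u : Kˣ => (u : K)) (h1 (Units.mk0 s hs))
      simp only [Units.val_pow_eq_pow_val, Units.val_mk0, Units.val_one] at h5
      rw [h5, sub_self, mul_zero]
  rcases mul_eq_zero.1 h4 with h5 | h5
  · exact Polynomial.X_ne_zero h5
  · exact Polynomial.X_pow_sub_C_ne_zero hk 1 h5

/-- characters of the torus -/
private def chf {d : ℕ} (e : Fin d → ℤ) : (Fin d → Kˣ) →* K where
  toFun t := ((∏ l, t l ^ e l : Kˣ) : K)
  map_one' := by simp
  map_mul' a b := by simp [mul_zpow, Finset.prod_mul_distrib]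

private theorem chf_injective [Infinite K] {d : ℕ} :
    Function.Injective (chf (K := K) : (Fin d → ℤ) → ((Fin d → Kˣ) →* K)) := by
  classical
  intro e e' h
  funext l
  rw [← sub_eq_zero]
  apply zpow_eq_one (K := K)
  intro s
  have h1 := congrArg (fun ψ : (Fin d → Kˣ) →* K => ψ (Function.update 1 l s)) h
  have h2 : ∀ e : Fin d → ℤ, ∏ k, (Function.update (1 : Fin d → Kˣ) l s) k ^ e k = s ^ e l := by
    intro e
    rw [Finset.prod_eq_single l]
    · rw [Function.update_self]
    · intro k _ hk
      rw [Function.update_of_ne hk, Pi.one_apply, one_zpow]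
    · intro hl
      exact absurd (Finset.mem_univ _) hl
  have h3 : ∏ k, (Function.update (1 : Fin d → Kˣ) l s) k ^ e k =
      ∏ k, (Function.update (1 : Fin d → Kˣ) l s) k ^ e' k := Units.ext h1
  rw [h2, h2] at h3
  rw [zpow_sub, h3, mul_inv_cancel]

/-- evaluation of Laurent monomials -/
private def mon {d : ℕ} (t : Fin d → Kˣ) : Multiplicative (Fin d → ℤ) →* K where
  toFun e := ((∏ l, t l ^ (Multiplicative.toAdd e) l : Kˣ) : K)
  map_one' := by simp
  map_mul' a b := by simp [zpow_add, Finset.prod_mul_distrib]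

private theorem laurent_eq_zero [Infinite K] {d : ℕ} (p : AddMonoidAlgebra K (Fin d → ℤ))
    (h : ∀ t : Fin d → Kˣ, AddMonoidAlgebra.lift K K (Fin d → ℤ) (mon t) p = 0) : p = 0 := by
  have hli := linearIndependent_iff'.1
    ((linearIndependent_monoidHom (Fin d → Kˣ) K).comp chf chf_injective)
    p.coeff.support p.coeff (by
      funext t
      rw [Finset.sum_apply, Pi.zero_apply, ← h t, AddMonoidAlgebra.lift_apply]
      rfl)
  by_contra hp
  apply hp
  ext e
  by_contra he
  exact he (hli e (Finsupp.mem_support_iff.2 he))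

private theorem van_prime [Infinite K] {d : ℕ} (c : Fin d → Fin n → ℤ) :
    (van (Set.range (lam (K := K) c))).IsPrime := by
  let φ : MvPolynomial (Fin n) K →ₐ[K] AddMonoidAlgebra K (Fin d → ℤ) :=
    aeval fun i => AddMonoidAlgebra.single (fun l => c l i) 1
  have h1 : ∀ (t : Fin d → Kˣ) (f : MvPolynomial (Fin n) K),
      AddMonoidAlgebra.lift K K (Fin d → ℤ) (mon t) (φ f) =
        eval (fun i => ((lam c t i : Kˣ) : K)) f := by
    intro t f
    have h2 : (AddMonoidAlgebra.lift K K (Fin d → ℤ) (mon t)).comp φ =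
        aeval (fun i => ((lam c t i : Kˣ) : K)) := by
      refine MvPolynomial.algHom_ext fun i => ?_
      rw [AlgHom.comp_apply, aeval_X, aeval_X, AddMonoidAlgebra.lift_single, one_smul]
      rfl
    have h3 := congrArg (fun ψ : MvPolynomial (Fin n) K →ₐ[K] K => ψ f) h2
    rw [← MvPolynomial.aeval_eq_eval]
    exact h3
  have h2 : van (Set.range (lam (K := K) c)) = RingHom.ker (φ : MvPolynomial (Fin n) K →+*
      AddMonoidAlgebra K (Fin d → ℤ)) := by
    ext f
    rw [RingHom.mem_ker]
    constructor
    · intro hf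
      apply laurent_eq_zero
      intro t
      exact (h1 t f).trans (hf _ ⟨t, rfl⟩)
    · rintro hf _ ⟨t, rfl⟩
      rw [← h1 t f]
      have h3 : φ f = 0 := hf
      rw [h3, map_zero]
  rw [h2]
  exact RingHom.ker_isPrime _

/-- The dimension of a closed subgroup is at least the corank of its group of trivial
characters. -/
theorem le_zdim_subgroup [Infinite K] (H : Subgroup (Fin n → Kˣ))
    (hH : IsClosed[zariski K n] (H : Set (Fin n → Kˣ))) :
    ((n - finrank ℤ (chr H) : ℕ) : WithBot ℕ∞) ≤ zdim (H : Set (Fin n → Kˣ)) := by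
  classical
  obtain ⟨r, snf⟩ := Submodule.smithNormalForm (Pi.basisFun ℤ (Fin n)) (chr H)
  have hr : finrank ℤ (chr H) = r := by
    rw [Module.finrank_eq_card_basis snf.bN, Fintype.card_fin]
  rw [hr]
  -- enumeration of the complement of the range
  have hcard : Fintype.card {k : Fin n // k ∉ Set.range snf.f} = n - r := by
    rw [Fintype.card_subtype_compl, Fintype.card_fin]
    congr 1
    have h1 : Fintype.card (Set.range snf.f) = r := by
      rw [Set.card_range_of_injective snf.f.injective, Fintype.card_fin]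
    exact h1
  let e : Fin (n - r) ≃ {k : Fin n // k ∉ Set.range snf.f} :=
    (Fintype.equivFinOfCardEq hcard).symm
  let b : Fin (n - r) → Fin n → ℤ := fun l i => snf.bM.repr (Pi.single i 1) (e l)
  have hb : ∀ (a : Fin n → ℤ) (l : Fin (n - r)), ∑ i, a i * b l i = snf.bM.repr a (e l) := by
    intro a l
    have h1 : a = ∑ i, a i • (Pi.single i (1 : ℤ) : Fin n → ℤ) := by
      funext k
      rw [Finset.sum_apply, Finset.sum_eq_single k]
      · simp
      · intro i _ hi
        simp [Pi.single_eq_of_ne (Ne.symm hi)]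
      · intro hk
        exact absurd (Finset.mem_univ _) hk
    conv_rhs => rw [h1]
    rw [map_sum, Finsupp.finsetSum_apply]
    refine Finset.sum_congr rfl fun i _ => ?_
    rw [map_smul, Finsupp.smul_apply, smul_eq_mul]
  let c : ℕ → Fin (n - r) → Fin n → ℤ := fun j l => if (l : ℕ) < j then b l else 0
  let A : ℕ → Set (Fin n → Kˣ) := fun j => Set.range (lam (c j))
  have hAmono : ∀ j, A j ⊆ A (j + 1) := by
    rintro j _ ⟨t, rfl⟩
    refine ⟨fun l => if (l : ℕ) < j then t l else 1, ?_⟩
    funext i
    refine Finset.prod_congr rfl fun l _ => ?_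
    show (if (l : ℕ) < j then t l else 1) ^ (if (l : ℕ) < j + 1 then b l else 0) i =
      t l ^ (if (l : ℕ) < j then b l else 0) i
    by_cases hl : (l : ℕ) < j
    · rw [if_pos hl, if_pos hl, if_pos (by omega)]
    · rw [if_neg hl, if_neg hl, one_zpow, Pi.zero_apply, zpow_zero]
  have hAH : ∀ j, A j ⊆ (H : Set (Fin n → Kˣ)) := by
    rintro j _ ⟨t, rfl⟩
    refine mem_of_chr H hH _ fun a ha => ?_
    rw [lam_prod]
    refine Finset.prod_eq_one fun l _ => ?_
    have h1 : ∑ i, a i * c j l i = 0 := by
      show ∑ i, a i * (if (l : ℕ) < j then b l else 0) i = 0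
      split_ifs with hl
      · rw [hb]
        exact snf.repr_eq_zero_of_notMem_range ⟨a, ha⟩ (e l).2
      · simp
    rw [h1, zpow_zero]
  refine le_zdim (H : Set (Fin n → Kˣ)) (n - r)
    (fun j => zeros (van (A j) : Set (MvPolynomial (Fin n) K)))
    (fun j _ => isClosed_zeros _) (fun j _ => ?_) (fun j _ => ?_) (fun j hj => ?_)
  · rw [isIrreducible_iff, van_closure]
    exact van_prime (c j)
  · rw [← closure_eq]
    exact @closure_minimal _ (zariski K n) _ _ (hAH j) hH
  · rw [Set.ssubset_iff_subset_ne]
    have hsub : zeros (van (A j) : Set (MvPolynomial (Fin n) K)) ⊆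
        zeros (van (A (j + 1)) : Set (MvPolynomial (Fin n) K)) := by
      intro x hx f hf
      exact hx f fun y hy => hf y (hAmono j hy)
    refine ⟨hsub, fun heq => ?_⟩
    -- the polynomial
    let l₀ : Fin (n - r) := ⟨j, hj⟩
    let a : Fin n → ℤ := snf.bM (e l₀)
    have ha : ∀ l : Fin (n - r), ∑ i, a i * b l i = if l = l₀ then 1 else 0 := by
      intro l
      rw [hb, Module.Basis.repr_self, Finsupp.single_apply]
      by_cases hl : l = l₀
      · rw [if_pos (by rw [hl]), if_pos hl]
      · rw [if_neg (fun h => hl (e.injective (Subtype.ext h)).symm), if_neg hl]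
    let f : MvPolynomial (Fin n) K :=
      ∏ i, X i ^ (a i).toNat - ∏ i, X i ^ (-a i).toNat
    have hf : ∀ x : Fin n → Kˣ, eval (fun i => (x i : K)) f = 0 ↔ ∏ i, x i ^ a i = 1 := by
      intro x
      have h1 : ∏ i, x i ^ a i = (∏ i, x i ^ (a i).toNat) / ∏ i, x i ^ (-a i).toNat := by
        rw [← Finset.prod_div_distrib]
        refine Finset.prod_congr rfl fun i _ => ?_
        rw [div_eq_mul_inv, ← zpow_natCast, ← zpow_natCast, ← zpow_neg, ← zpow_add]
        congr 1
        omega
      rw [h1, div_eq_one, map_sub, map_prod, map_prod, sub_eq_zero]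
      simp only [map_pow, eval_X]
      rw [← Units.val_inj, Units.coe_prod, Units.coe_prod]
      simp only [Units.val_pow_eq_pow_val]
    have hfv : f ∈ van (A j) := by
      rintro _ ⟨t, rfl⟩
      rw [hf, lam_prod]
      refine Finset.prod_eq_one fun l _ => ?_
      have h1 : ∑ i, a i * c j l i = 0 := by
        show ∑ i, a i * (if (l : ℕ) < j then b l else 0) i = 0
        split_ifs with hl
        · rw [ha, if_neg]
          intro h
          rw [h] at hl
          exact lt_irrefl _ hl
        · simp
      rw [h1, zpow_zero]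
    obtain ⟨s, hs⟩ : ∃ s : Kˣ, s ≠ 1 := by
      by_contra hcon
      push Not at hcon
      have h1 := zpow_eq_one (K := K) 1 (fun s => by rw [hcon s, one_zpow])
      exact one_ne_zero h1
    have hx : lam (c (j + 1)) (Function.update 1 l₀ s) ∈
        zeros (van (A (j + 1)) : Set (MvPolynomial (Fin n) K)) :=
      subset_zeros_van _ ⟨_, rfl⟩
    rw [← heq] at hx
    have h2 := (hf _).1 (hx f hfv)
    rw [lam_prod, Finset.prod_eq_single l₀] at h2
    · have h3 : ∑ i, a i * c (j + 1) l₀ i = 1 := by
        show ∑ i, a i * (if (l₀ : ℕ) < j + 1 then b l₀ else 0) i = 1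
        rw [if_pos (Nat.lt_succ_self j), ha, if_pos rfl]
      rw [h3, Function.update_self, zpow_one] at h2
      exact hs h2
    · intro l _ hl
      rw [Function.update_of_ne hl, Pi.one_apply, one_zpow]
    · intro hl
      exact absurd (Finset.mem_univ _) hl

end Pool.Agent.ZT
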