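import Mathlib
import Pool.Agent.Lib.MP_c95b3b_ag_G.Defs

set_option autoImplicit false

/-! MP_c95b3b_ag in geometric form: the dimension of an irreducible closed subset is at least the
number of coordinates which are algebraically independent on it.

Proof of `van_zeros`. `Q ≤ van` is clear. Let `f` vanish on `zeros Q`. Then `f * ∏ X i` vanishes at
all points `x : Fin n → K` of the zero locus of `Q` (if some `x i = 0` because of the product, else
`x` comes from a point of `zeros Q`), so by the Nullstellensatz of Mathlib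
(`MvPolynomial.vanishingIdeal_zeroLocus_eq_radical`, `K` algebraically closed) it lies in the
radical of `Q`, which is `Q`. As `∏ X i ∉ Q` and `Q` is prime, `f ∈ Q`.

Proof of `le_zdim_of_indep`. Put `P = van Y` (prime by `isIrreducible_iff`), `π = ∏ X i ∉ P` (a point
`x ∈ Y` has `π x ≠ 0`), `R = MvPolynomial (Fin n) K ⧸ P`, `B = Localization.Away (mk π)`, a finitely
generated domain over `K`. The images of `X i`, `i ∈ I`, are algebraically independent over `K` in
`R`, so in `B` (a polynomial `g` in the variables `↥I` with value `0` gives `f = rename Subtype.val g`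
with `f.vars ⊆ I`, `f ∈ P`, so `f = 0`, `g = 0`). Copy the two lemmas of
`Pool.Agent.Lib.MP_c95b3b_ag_h85.Dim` (`ringKrullDim_le_of_integral`, `card_le_ringKrullDim`; there
for `Type`) into this file with universes `Type u` (prove them again here in the namespace
`Pool.Agent.ZT`): so `I.card ≤ ringKrullDim B`, and `Order.le_krullDim_iff` gives a series `l` of
primes of `B` of length `I.card`. Let `Q j` be the pull back of the prime `l (d - j)` to
`MvPolynomial (Fin n) K` (for `j ≤ d = I.card`): `Q j` is prime, contains `P`, does not contain `π`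
(a unit of `B`), and `Q (j + 1) < Q j` (strict: primes of a localization are determined by their
pull back, `IsLocalization.comap_map_of_isPrime_disjoint` or `IsLocalization.orderEmbedding`,
and the quotient map is surjective). Now use `le_zdim` with `W j = zeros (Q j)`: closed,
irreducible by `isIrreducible_iff` and `van_zeros`, contained in `zeros P = Y` (`eq_zeros_van`),
`W j ⊆ W (j + 1)` as `Q (j + 1) ≤ Q j`, and not equal by `van_zeros`. -/

namespace Pool.Agent.ZT

open MvPolynomial Topology

universe u

variable {K : Type u} [Field K] {n : ℕ}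

/-! Two lemmas of `MP_c95b3b_ag_h85.Dim` with universes. -/

private theorem DimY_dim_le {A R : Type*} [CommRing A] [CommRing R] [Algebra A R]
    (hinj : Function.Injective (algebraMap A R)) [Algebra.IsIntegral A R] :
    ringKrullDim A ≤ ringKrullDim R := by
  unfold ringKrullDim Order.krullDim
  refine iSup_le fun s => ?_
  suffices h : ∀ l : ℕ, ∀ s : LTSeries (PrimeSpectrum A), s.length = l →
      ∃ t : LTSeries (PrimeSpectrum R), t.length = l ∧
        PrimeSpectrum.comap (algebraMap A R) t.last = s.last by
    obtain ⟨t, ht, -⟩ := h _ s rfl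
    rw [← ht]
    exact le_iSup (fun t : LTSeries (PrimeSpectrum R) => ((t.length : ℕ∞) : WithBot ℕ∞)) t
  intro l
  induction l with
  | zero =>
    intro s hs
    obtain ⟨Q, -, hQ, hQ'⟩ := Ideal.exists_ideal_over_prime_of_isIntegral (S := R)
      s.last.asIdeal ⊥ (by
        rw [← RingHom.ker_eq_comap_bot, (RingHom.injective_iff_ker_eq_bot _).mp hinj]
        exact bot_le)
    refine ⟨RelSeries.singleton _ ⟨Q, hQ⟩, rfl, ?_⟩
    ext1
    simpa using hQ'
  | succ l ih =>
    intro s hs
    have hne : s.length ≠ 0 := by omega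
    obtain ⟨t, ht, htl⟩ := ih s.eraseLast (by simp [hs])
    have hlt : s.eraseLast.last < s.last := s.eraseLast_last_rel_last hne
    obtain ⟨Q, hQt, hQ, hQ'⟩ := Ideal.exists_ideal_over_prime_of_isIntegral (S := R)
      s.last.asIdeal t.last.asIdeal (by
        have h1 := congrArg PrimeSpectrum.asIdeal htl
        rw [PrimeSpectrum.comap_asIdeal] at h1
        rw [h1]
        exact hlt.le)
    have hlt' : t.last < ⟨Q, hQ⟩ := by
      refine lt_of_le_of_ne hQt ?_
      intro h
      rw [h] at htl
      have h1 := congrArg PrimeSpectrum.asIdeal htl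
      rw [PrimeSpectrum.comap_asIdeal] at h1
      change Q.comap _ = _ at h1
      rw [hQ'] at h1
      exact hlt.ne (PrimeSpectrum.ext h1.symm)
    refine ⟨t.snoc ⟨Q, hQ⟩ hlt', by simp [ht], ?_⟩
    rw [RelSeries.last_snoc]
    ext1
    simpa using hQ'

private theorem DimY_card_le {k R : Type u} [Field k] [CommRing R] [IsDomain R] [Algebra k R]
    [Algebra.FiniteType k R] {ι : Type} [Fintype ι] (x : ι → R) (hx : AlgebraicIndependent k x) :
    (Fintype.card ι : WithBot ℕ∞) ≤ ringKrullDim R := by
  obtain ⟨s, g, ginj, gint⟩ := exists_integral_inj_algHom_of_fg k R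
  let _ : Algebra (MvPolynomial (Fin s) k) R := g.toRingHom.toAlgebra
  have _ : IsScalarTower k (MvPolynomial (Fin s) k) R :=
    IsScalarTower.of_algebraMap_eq' g.comp_algebraMap.symm
  have _ : Algebra.IsIntegral (MvPolynomial (Fin s) k) R := ⟨gint⟩
  have h1 : ringKrullDim (MvPolynomial (Fin s) k) ≤ ringKrullDim R :=
    DimY_dim_le (A := MvPolynomial (Fin s) k) (R := R) ginj
  rw [MvPolynomial.ringKrullDim_of_isNoetherianRing, ringKrullDim_eq_zero_of_field] at h1
  have h2 : Fintype.card ι ≤ s := by
    have h3 := hx.lift_cardinalMk_le_trdeg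
    have _ : FaithfulSMul (MvPolynomial (Fin s) k) R :=
      (faithfulSMul_iff_algebraMap_injective _ _).mpr ginj
    have h4 := _root_.trdeg_add_eq k (MvPolynomial (Fin s) k) (A := R)
    have h5 : Algebra.trdeg (MvPolynomial (Fin s) k) R = 0 := by
      exact trdeg_eq_zero
    rw [h5, add_zero, MvPolynomial.trdeg_of_isDomain] at h4
    rw [← h4] at h3
    simp only [Cardinal.mk_fintype, Cardinal.lift_natCast, Fintype.card_fin] at h3
    exact_mod_cast h3
  refine le_trans ?_ h1
  simp only [Nat.card_eq_fintype_card, Fintype.card_fin, zero_add]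
  exact_mod_cast h2

private theorem DimY_prod_notMem {Z : Set (Fin n → Kˣ)} (hne : Z.Nonempty) :
    (∏ i : Fin n, (X i : MvPolynomial (Fin n) K)) ∉ van Z := by
  intro h
  obtain ⟨x, hx⟩ := hne
  have h1 := h x hx
  rw [map_prod] at h1
  obtain ⟨i, -, hi⟩ := Finset.prod_eq_zero_iff.1 h1
  rw [eval_X] at hi
  exact (x i).ne_zero hi

/-- Nullstellensatz in the torus: a prime ideal `Q` without the product of the variables is the
ideal of the polynomials which vanish on `zeros Q`. -/
theorem van_zeros [IsAlgClosed K] (Q : Ideal (MvPolynomial (Fin n) K)) (hQ : Q.IsPrime)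
    (hX : (∏ i : Fin n, (X i : MvPolynomial (Fin n) K)) ∉ Q) :
    van (zeros (Q : Set (MvPolynomial (Fin n) K))) = Q := by
  apply le_antisymm
  · intro f hf
    have h1 : f * ∏ i : Fin n, (X i : MvPolynomial (Fin n) K) ∈
        vanishingIdeal K (zeroLocus K Q) := by
      intro x hx
      rw [map_mul]
      by_cases h0 : ∃ i, x i = 0
      · obtain ⟨i, hi⟩ := h0
        have h2 : aeval x (∏ i : Fin n, (X i : MvPolynomial (Fin n) K)) = 0 := by
          rw [map_prod]
          exact Finset.prod_eq_zero (Finset.mem_univ i) (by rw [aeval_X, hi])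
        rw [h2, mul_zero]
      · push Not at h0
        have h2 : (fun i => Units.mk0 (x i) (h0 i)) ∈
            zeros (Q : Set (MvPolynomial (Fin n) K)) := fun g hg => by
          have h3 := hx g hg
          rw [aeval_eq_eval] at h3
          exact h3
        have h4 : eval x f = 0 := hf _ h2
        rw [aeval_eq_eval]
        show eval x f * _ = 0
        rw [h4, zero_mul]
    have _ := hQ
    rw [IsPrime.vanishingIdeal_zeroLocus] at h1
    exact (hQ.mem_or_mem h1).resolve_right hX
  · intro f hf x hx
    exact hx f hf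

/-- The coordinates `i ∈ I` are algebraically independent on `Y`, so `|I| ≤ dim Y`. -/
theorem le_zdim_of_indep [IsAlgClosed K] (Y : Set (Fin n → Kˣ)) (hc : IsClosed[zariski K n] Y)
    (hY : @IsIrreducible _ (zariski K n) Y) (I : Finset (Fin n))
    (hI : ∀ f : MvPolynomial (Fin n) K, f.vars ⊆ I → f ∈ van Y → f = 0) :
    (I.card : WithBot ℕ∞) ≤ zdim Y := by
  classical
  have hP : (van Y).IsPrime := (isIrreducible_iff Y).1 hY
  have hπ := DimY_prod_notMem hY.1
  let R := MvPolynomial (Fin n) K ⧸ van Y
  let π : R := Ideal.Quotient.mk (van Y) (∏ i : Fin n, (X i : MvPolynomial (Fin n) K))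
  have hπ0 : π ≠ 0 := by
    intro h
    exact hπ (Ideal.Quotient.eq_zero_iff_mem.1 h)
  have _ : IsDomain R := Ideal.Quotient.isDomain (van Y)
  let B := Localization.Away π
  have hle : Submonoid.powers π ≤ nonZeroDivisors R :=
    powers_le_nonZeroDivisors_of_noZeroDivisors hπ0
  have _ : IsDomain B := IsLocalization.isDomain_localization hle
  have _ : Algebra.FiniteType K R := inferInstanceAs
    (Algebra.FiniteType K (MvPolynomial (Fin n) K ⧸ van Y))
  have _ : Algebra.FiniteType R B := IsLocalization.finiteType_of_monoid_fg (Submonoid.powers π) B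
  have _ : Algebra.FiniteType K B := Algebra.FiniteType.trans (S := R) inferInstance inferInstance
  have hinj : Function.Injective (algebraMap R B) := IsLocalization.injective B hle
  let φ : MvPolynomial (Fin n) K →ₐ[K] B :=
    (IsScalarTower.toAlgHom K R B).comp (Ideal.Quotient.mkₐ K (van Y))
  have hφ : ∀ f, φ f = 0 → f ∈ van Y := by
    intro f hf
    have h1 : algebraMap R B (Ideal.Quotient.mk (van Y) f) = 0 := hf
    rw [← map_zero (algebraMap R B)] at h1
    exact Ideal.Quotient.eq_zero_iff_mem.1 (hinj h1)
  have hx : AlgebraicIndependent K (fun i : {i // i ∈ I} => φ (X (i : Fin n))) := by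
    rw [algebraicIndependent_iff]
    intro g hg
    have h1 : φ (rename Subtype.val g) = 0 := by
      rw [← hg, ← AlgHom.comp_apply]
      congr 1
      apply MvPolynomial.algHom_ext
      intro i
      rw [AlgHom.comp_apply, rename_X, aeval_X]
    have h2 : rename Subtype.val g = (0 : MvPolynomial (Fin n) K) := by
      refine hI _ ?_ (hφ _ h1)
      intro i hi
      obtain ⟨j, -, rfl⟩ := Finset.mem_image.1 (vars_rename _ _ hi)
      exact j.2
    exact rename_injective _ Subtype.val_injective (by rw [h2, map_zero])
  have h1 := DimY_card_le _ hx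
  rw [Fintype.card_coe] at h1
  obtain ⟨l, hl⟩ := Order.le_krullDim_iff.1 h1
  -- the primes of the polynomial ring
  let ψ : MvPolynomial (Fin n) K →+* B :=
    (algebraMap R B).comp (Ideal.Quotient.mk (van Y))
  let Q : ℕ → Ideal (MvPolynomial (Fin n) K) := fun j =>
    Ideal.comap ψ (l ⟨I.card - j, by omega⟩).asIdeal
  have hQP : ∀ j, (Q j).IsPrime := fun j =>
    Ideal.IsPrime.comap ψ (hK := (l ⟨I.card - j, by omega⟩).isPrime)
  have hYQ : ∀ j, van Y ≤ Q j := by
    intro j f hf
    show ψ f ∈ (l ⟨I.card - j, by omega⟩).asIdeal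
    have : ψ f = 0 := by
      show algebraMap R B (Ideal.Quotient.mk (van Y) f) = 0
      rw [Ideal.Quotient.eq_zero_iff_mem.2 hf, map_zero]
    rw [this]
    exact zero_mem _
  have hπQ : ∀ j, (∏ i : Fin n, (X i : MvPolynomial (Fin n) K)) ∉ Q j := by
    intro j h
    have h2 : algebraMap R B π ∈ (l ⟨I.card - j, by omega⟩).asIdeal := h
    exact (l ⟨I.card - j, by omega⟩).isPrime.ne_top
      (Ideal.eq_top_of_isUnit_mem _ h2 (IsLocalization.Away.algebraMap_isUnit π))
  have hlt : ∀ j, j < I.card → Q (j + 1) < Q j := by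
    intro j hj
    have h2 : l ⟨I.card - (j + 1), by omega⟩ < l ⟨I.card - j, by omega⟩ :=
      l.strictMono (Fin.mk_lt_mk.2 (by omega))
    refine lt_of_le_of_ne (Ideal.comap_mono h2.le) ?_
    intro h3
    have h4 : Ideal.comap (algebraMap R B) (l ⟨I.card - (j + 1), by omega⟩).asIdeal =
        Ideal.comap (algebraMap R B) (l ⟨I.card - j, by omega⟩).asIdeal := by
      have h5 : Ideal.comap (Ideal.Quotient.mk (van Y))
          (Ideal.comap (algebraMap R B) (l ⟨I.card - (j + 1), by omega⟩).asIdeal) =
        Ideal.comap (Ideal.Quotient.mk (van Y))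
          (Ideal.comap (algebraMap R B) (l ⟨I.card - j, by omega⟩).asIdeal) := by
        rw [Ideal.comap_comap, Ideal.comap_comap]
        exact h3
      exact Ideal.comap_injective_of_surjective _ Ideal.Quotient.mk_surjective h5
    have h6 := PrimeSpectrum.localization_comap_injective B (Submonoid.powers π)
      (PrimeSpectrum.ext h4)
    exact h2.ne h6
  refine le_zdim Y I.card (fun j => zeros (Q j : Set (MvPolynomial (Fin n) K)))
    (fun j _ => isClosed_zeros _) (fun j _ => ?_) (fun j _ => ?_) (fun j hj => ?_)
  · rw [isIrreducible_iff, van_zeros _ (hQP j) (hπQ j)]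
    exact hQP j
  · intro x hx
    rw [eq_zeros_van hc]
    exact fun f hf => hx f (hYQ j hf)
  · refine ⟨fun x hx f hf => hx f ((hlt j hj).le hf), ?_⟩
    intro hsub
    have h2 : van (zeros (Q j : Set (MvPolynomial (Fin n) K))) ≤
        van (zeros (Q (j + 1) : Set (MvPolynomial (Fin n) K))) :=
      fun f hf x hx => hf x (hsub hx)
    rw [van_zeros _ (hQP j) (hπQ j), van_zeros _ (hQP (j + 1)) (hπQ (j + 1))] at h2
    exact (hlt j hj).not_ge h2

end Pool.Agent.ZT
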