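import Mathlib
import Pool.Agent.Lib.MP_c95b3b_ag_G.DimY
import Pool.Agent.Lib.MP_c95b3b_ag_G.DimH
import Pool.Agent.Lib.MP_c95b3b_ag_G.Base

set_option autoImplicit false

/-! MP_c95b3b_ag in geometric form: the theorem. -/

namespace Pool.Agent.ZT

open MvPolynomial Topology Module

universe u

variable {K : Type u} [Field K] {n : ℕ}

/-- `U(Y)`: the points of `Y` in algebraic subgroups `H` with `dim Y + dim H ≤ n - 1` -/
def unlikely (Y : Set (Fin n → Kˣ)) : Set (Fin n → Kˣ) :=
  ⋃ (H : Subgroup (Fin n → Kˣ)) (_ : IsClosed[zariski K n] (H : Set (Fin n → Kˣ)))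
    (_ : zdim Y + zdim (H : Set (Fin n → Kˣ)) + 1 ≤ n), Y ∩ H

theorem final (hC : FullC) [IsAlgClosed K] [CharZero K] (Y : Set (Fin n → Kˣ))
    (hc : IsClosed[zariski K n] Y) (hY : @IsIrreducible _ (zariski K n) Y)
    (hU : Y ⊆ closure[zariski K n] (unlikely Y)) :
    ∃ H : Subgroup (Fin n → Kˣ), IsClosed[zariski K n] (H : Set (Fin n → Kˣ)) ∧ H ≠ ⊤ ∧
      Y ⊆ H := by
  classical
  have hpr : (van Y).IsPrime := (isIrreducible_iff Y).1 hY
  -- vanishing on the unlikely points
  have hden : ∀ f : MvPolynomial (Fin n) K, f ∈ van (unlikely Y) → f ∈ van Y := by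
    intro f hf x hx
    have h1 := hU hx
    rw [closure_eq] at h1
    exact h1 f hf
  have hsub : unlikely Y ⊆ Y := by
    intro x hx
    simp only [unlikely, Set.mem_iUnion] at hx
    obtain ⟨H, _, _, hx⟩ := hx
    exact hx.1
  -- the maximal number of independent coordinates
  let T : Finset (Finset (Fin n)) := Finset.univ.filter fun I =>
    ∀ f : MvPolynomial (Fin n) K, f.vars ⊆ I → f ∈ van Y → f = 0
  have hT : T.Nonempty := by
    refine ⟨∅, ?_⟩
    simp only [T, Finset.mem_filter, Finset.mem_univ, true_and]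
    intro f hf hfY
    rw [Finset.subset_empty] at hf
    have h1 : f = C (coeff 0 f) := by
      rw [← MvPolynomial.vars_eq_empty_iff_eq_C.1 hf]
    obtain ⟨x, hx⟩ := hY.1
    have h2 := hfY x hx
    rw [h1, eval_C] at h2
    rw [h1, h2, C_0]
  obtain ⟨I0, hI0, hmax⟩ := T.exists_max_image Finset.card hT
  simp only [T, Finset.mem_filter, Finset.mem_univ, true_and] at hI0 hmax
  have hdY : (I0.card : WithBot ℕ∞) ≤ zdim Y := le_zdim_of_indep Y hc hY I0 hI0
  -- the points as vectors over `K`
  let U : Set (Fin n → K) := (fun (x : Fin n → Kˣ) i => (x i : K)) '' unlikely Y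
  have hU0 : ∀ f : MvPolynomial (Fin n) K, (∀ x ∈ U, eval x f = 0) ↔ f ∈ van (unlikely Y) := by
    intro f
    constructor
    · intro h x hx
      exact h _ ⟨x, hx, rfl⟩
    · rintro h _ ⟨x, hx, rfl⟩
      exact h x hx
  have hne : (unlikely Y).Nonempty := by
    by_contra hcon
    rw [Set.not_nonempty_iff_eq_empty] at hcon
    apply hpr.ne_top
    rw [Ideal.eq_top_iff_one]
    apply hden
    rw [hcon]
    rintro x ⟨⟩
  obtain ⟨a, ha, hall⟩ := base hC K n I0.card U
    (by
      rintro _ ⟨x, -, rfl⟩ i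
      exact (x i).ne_zero)
    (hne.image _)
    (by
      intro f g hfg
      rw [hU0] at hfg
      rcases hpr.mem_or_mem (hden _ hfg) with h | h
      · left
        rw [hU0]
        exact fun x hx => h x (hsub hx)
      · right
        rw [hU0]
        exact fun x hx => h x (hsub hx))
    (by
      intro I hI
      by_contra hcon
      push Not at hcon
      have h1 : ∀ f : MvPolynomial (Fin n) K, f.vars ⊆ I → f ∈ van Y → f = 0 := by
        intro f hf hfY
        by_contra hf0
        obtain ⟨x, hx, hx0⟩ := hcon f hf0 hf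
        apply hx0
        exact (hU0 f).2 (fun y hy => hfY y (hsub hy)) x hx
      have := hmax I h1
      omega)
    (by
      rintro _ ⟨x, hx, rfl⟩
      simp only [unlikely, Set.mem_iUnion] at hx
      obtain ⟨H, hH, hdim, hx⟩ := hx
      refine ⟨chr H, ?_, ?_⟩
      · have h1 := le_zdim_subgroup H hH
        have h2 : ((I0.card : ℕ) : WithBot ℕ∞) + ((n - finrank ℤ (chr H) : ℕ) : WithBot ℕ∞) + 1
            ≤ n := le_trans (by gcongr) hdim
        exact_mod_cast h2
      · intro a ha
        have h3 := congrArg (Units.val) (ha x hx.2)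
        simpa using h3)
  -- the subgroup
  let H : Subgroup (Fin n → Kˣ) :=
    { carrier := {x | ∏ i, x i ^ a i = 1}
      mul_mem' := by
        intro x y hx hy
        simp only [Set.mem_ofPred_eq, Pi.mul_apply, mul_zpow, Finset.prod_mul_distrib] at hx hy ⊢
        rw [hx, hy, mul_one]
      one_mem' := by simp
      inv_mem' := by
        intro x hx
        simp only [Set.mem_ofPred_eq, Pi.inv_apply, inv_zpow, Finset.prod_inv_distrib] at hx ⊢
        rw [hx, inv_one] }
  have hmem : ∀ x : Fin n → Kˣ, x ∈ H ↔ ∏ i, x i ^ a i = 1 := fun x => Iff.rfl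
  let q : MvPolynomial (Fin n) K := ∏ i, X i ^ (a i).toNat - ∏ i, X i ^ (-a i).toNat
  have hq : ∀ x : Fin n → Kˣ, eval (fun i => (x i : K)) q = 0 ↔ ∏ i, x i ^ a i = 1 := by
    intro x
    have h1 : ∏ i, x i ^ a i = (∏ i, x i ^ (a i).toNat) * (∏ i, x i ^ (-a i).toNat)⁻¹ := by
      rw [← Finset.prod_inv_distrib, ← Finset.prod_mul_distrib]
      refine Finset.prod_congr rfl fun i _ => ?_
      rw [← zpow_natCast, ← zpow_natCast, ← zpow_neg, ← zpow_add]
      congr 1
      omega
    rw [h1, mul_inv_eq_one]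
    simp only [q, map_sub, map_prod, map_pow, eval_X]
    rw [sub_eq_zero, Units.ext_iff]
    simp only [Units.coe_prod, Units.val_pow_eq_pow_val]
  refine ⟨H, ?_, ?_, ?_⟩
  · rw [isClosed_iff]
    refine ⟨{q}, ?_⟩
    ext x
    rw [SetLike.mem_coe, hmem, ← hq x]
    simp [zeros]
  · intro htop
    obtain ⟨i, hi⟩ := Function.ne_iff.1 ha
    have h1 : ∀ t : Kˣ, t ^ a i = 1 := by
      intro t
      have h2 : Pi.mulSingle i t ∈ H := by rw [htop]; trivial
      rw [hmem] at h2
      rw [Finset.prod_eq_single i] at h2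
      · rwa [Pi.mulSingle_eq_same] at h2
      · intro j _ hj
        rw [Pi.mulSingle_eq_of_ne hj, one_zpow]
      · intro h3
        exact absurd (Finset.mem_univ i) h3
    have h2 : ∀ t : Kˣ, t ^ (a i).natAbs = 1 := by
      intro t
      have h3 := h1 t
      rcases Int.natAbs_eq (a i) with h4 | h4
      · rw [h4, zpow_natCast] at h3
        exact h3
      · rw [h4, zpow_neg, zpow_natCast, inv_eq_one] at h3
        exact h3
    have h3 : (2 : K) ≠ 0 := two_ne_zero
    have h4 := congrArg Units.val (h2 (Units.mk0 2 h3))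
    rw [Units.val_pow_eq_pow_val, Units.val_mk0, Units.val_one] at h4
    have h5 : ((2 ^ (a i).natAbs : ℕ) : K) = ((1 : ℕ) : K) := by exact_mod_cast h4
    have h6 : (2 : ℕ) ^ (a i).natAbs = 1 := Nat.cast_injective h5
    have h7 : (a i).natAbs ≠ 0 := by
      rw [Ne, Int.natAbs_eq_zero]
      exact hi
    have h8 := Nat.one_lt_two_pow h7
    omega
  · intro x hx
    rw [SetLike.mem_coe, hmem, ← hq x]
    refine hden q ?_ x hx
    intro y hy
    rw [hq y]
    have h1 := hall _ ⟨y, hy, rfl⟩
    apply Units.ext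
    simpa using h1

end Pool.Agent.ZT
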